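import Pool.Agent.Y104.WL.Stm

/-!
# Products of the tensors given by numerically trivial classes
-/

open CategoryTheory AlgebraicGeometry
open Finset Module
open scoped Matrix

set_option linter.unusedSectionVars false

universe u v w

namespace Pool.Agent.Y391.WL

open Pool.Agent.Y104.Kempf Pool.Agent.Y104.WL

/-- Central factors are pulled out of a product. -/
theorem ofFn_mul_prod {H : Type*} [Ring H] {n : ℕ} (a b : Fin n → H)
    (h : ∀ i x, a i * x = x * a i) :
    (List.ofFn fun i => a i * b i).prod = (List.ofFn a).prod * (List.ofFn b).prod := by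
  induction n with
  | zero => simp
  | succ n ih =>
    have hc : ∀ x, (List.ofFn fun i : Fin n => a i.succ).prod * x =
        x * (List.ofFn fun i : Fin n => a i.succ).prod := by
      intro x
      have h1 : Commute ((List.ofFn fun i : Fin n => a i.succ).prod) x := by
        refine Commute.list_prod_left _ _ fun y hy => ?_
        rw [List.mem_ofFn] at hy
        obtain ⟨i, rfl⟩ := hy
        exact h i.succ x
      exact h1
    rw [List.ofFn_succ, List.ofFn_succ, List.ofFn_succ, List.prod_cons, List.prod_cons,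
      List.prod_cons, ih _ _ fun i x => h i.succ x, mul_assoc, mul_assoc, ← mul_assoc (b 0),
      ← hc (b 0), mul_assoc]

section Geometry

open Pool.Agent.H914 Pool.Agent.H914.VarClass Pool.Agent.H914.VarClass.Obj
  Pool.Agent.H914.WeilCohomology Pool.Agent.H281R3.HT Pool.Agent.TH125.Gal
  Pool.Agent.Y104.Geo

/-- The order of the slots. -/
def slots {A : Type} (M n : ℕ) (φ : Fin (M + 1) ≃ A) : List (A × Fin n) :=
  (List.finRange (M + 1)).flatMap fun i => (List.finRange n).map fun s => (φ i, s)

theorem slots_nodup {A : Type} (M n : ℕ) (φ : Fin (M + 1) ≃ A) : (slots M n φ).Nodup := by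
  rw [slots, List.nodup_flatMap]
  refine ⟨fun i _ => ?_, ?_⟩
  · refine (List.nodup_finRange n).map fun s s' h => ?_
    exact (Prod.mk.inj h).2
  · refine (List.nodup_finRange (M + 1)).pairwise_of_forall_ne fun i _ j _ hij => ?_
    rw [Function.onFun, List.disjoint_left]
    intro x hx hx'
    rw [List.mem_map] at hx hx'
    obtain ⟨s, -, rfl⟩ := hx
    obtain ⟨s', -, h⟩ := hx'
    exact hij (φ.injective (Prod.mk.inj h).1).symm

theorem mem_slots {A : Type} (M n : ℕ) (φ : Fin (M + 1) ≃ A) (x : A × Fin n) :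
    x ∈ slots M n φ := by
  rw [slots, List.mem_flatMap]
  refine ⟨φ.symm x.1, List.mem_finRange _, ?_⟩
  rw [List.mem_map]
  exact ⟨x.2, List.mem_finRange _, by rw [Equiv.apply_symm_apply]⟩

theorem slots_prod {A : Type} (M n : ℕ) (φ : Fin (M + 1) ≃ A) {H : Type*} [Ring H]
    (f : A × Fin n → H) : ((slots M n φ).map f).prod =
      (List.ofFn fun i => (List.ofFn fun s => f (φ i, s)).prod).prod := by
  rw [slots, map_flatMap_prod, List.ofFn_eq_map]
  congr 2
  funext i
  rw [List.map_map, List.ofFn_eq_map]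
  rfl

/-- Products of the tensors given by numerically trivial classes. -/
theorem ctp : S_CTP.{u, v} := by
  intro k _ 𝒱 ops W ι _ _ X P n c A _ _ _ y hy
  classical
  obtain ⟨M, hM⟩ : ∃ M, Fintype.card A = M + 1 :=
    Nat.exists_eq_succ_of_ne_zero Fintype.card_ne_zero
  let φ : Fin (M + 1) ≃ A := (finCongr hM.symm).trans (Fintype.equivFin A).symm
  choose Y p z hz hyi using hy
  obtain ⟨V, π, htr⟩ := exists_mp W M fun i => Y (φ i)
  have hζ : (List.ofFn fun i => W.map (π i) (z (φ i))).prod ∈ rad W V := by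
    rw [List.ofFn_succ, List.prod_cons]
    exact rad_mul (rad_map _ (hz (φ 0))) (ofFn_algSpan _ fun i =>
      algSpan_map _ (mem_rad.1 (hz (φ i.succ))).1)
  let p' : ∀ (i : Fin (M + 1)) (s : Fin n), V ⟶ X (c s) := fun i s => π i ≫ p (φ i) s
  refine ⟨V, (List.ofFn fun i => W.map (π i) (z (φ i))).prod, hζ, slots M n φ,
    slots_nodup M n φ, mem_slots M n φ, fun x => p' (φ.symm x.1) x.2, fun I => ?_⟩
  have h1 : ∏ a, y a (fun s => I (a, s)) = ∏ i, W.tr (Y (φ i)) (z (φ i) *
      (List.ofFn fun s => W.map (p (φ i) s) (xc P (c s) (I (φ i, s)))).prod) := by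
    rw [← Equiv.prod_comp φ]
    refine Finset.prod_congr rfl fun i _ => ?_
    rw [hyi (φ i)]
  have h2 : ∀ i, W.map (π i) (z (φ i) *
      (List.ofFn fun s => W.map (p (φ i) s) (xc P (c s) (I (φ i, s)))).prod) =
      W.map (π i) (z (φ i)) *
        (List.ofFn fun s => W.map (p' i s) (xc P (c s) (I (φ i, s)))).prod := by
    intro i
    rw [map_mul, map_list_prod, List.map_ofFn]
    congr 3
    funext s
    exact (W.map_comp _ _ _).symm
  rw [h1, ← htr, slots_prod]
  simp only [Equiv.symm_apply_apply]
  rw [← ofFn_mul_prod]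
  · congr 3
    funext i
    exact h2 i
  · intro i x
    exact alg_comm (algSpan_map _ (mem_rad.1 (hz (φ i))).1) x

end Geometry

end Pool.Agent.Y391.WL
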